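import Mathlib
import Pool.Agent.MP_76285e_an.Main

namespace Pool.Agent.Results.MP_76285e_an.Genus

open Pool.Agent.MP_76285e_an

theorem result (n : ℕ) (G : SimpleGraph (Fin n)) (hG : ∀ i, ∃ j, G.Adj i j) (p : ℝ) (hp : 1 ≤ p)
    (k : ℕ) (hk : 1 ≤ k) (hkn : k ≤ n) :
    ¬ IsHomRegular (rayleigh G p) (minmax genus (rayleigh G p) k) :=
  not_regular hG hp (by omega) genus genus_mono k

end Pool.Agent.Results.MP_76285e_an.Genus
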